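import Mathlib
import Pool.Agent.Y640.FM.Hard
import Pool.Agent.Y640.FM.Upper

set_option autoImplicit false

/-!
# Multiplying Fourier submatrices with random row sets: the exact cost

In the algebraic model of `Pool.Agent.H683R2.FourierDefs` (the four arithmetic operations on
complex numbers cost one unit each; constants, tests, branching and everything which depends on
`d`, `m`, `R`, `C` only are free) the naive algorithm with `2 m² - m` operations is optimal for
almost all sets of rows. For every `ε > 0` and all large primes `d` there is a set of columns `C`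
such that any countable set of algorithms (which need not be correct) has a common vector `v` for
which each of them outputs `F_{RC} v` with fewer than `2 m² - m` operations for at most an
`ε`-fraction of the sets `R`.
-/

open Filter Asymptotics Topology

namespace Pool.Agent.Results.MP_a662a5_lc.RandomRowsExact

open Pool.Agent.H683R2.FS Pool.Agent.Y640.FM

open Classical in
/-- The set of all `m`-element subsets of `{0, ..., d - 1}`, given by their increasing
enumerations. -/
noncomputable def rows (m d : ℕ) : Finset (Fin m → Fin d) :=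
  (Finset.univ : Finset (Fin m → Fin d)).filter (fun R => StrictMono R)

open Classical in
/-- The probability of the event `p` for a uniformly random `m`-element subset `R` of
`{0, ..., d - 1}`. -/
noncomputable def rowProb {m d : ℕ} (p : (Fin m → Fin d) → Prop) : ℝ :=
  (((rows m d).filter p).card : ℝ) / (rows m d).card

/-- The expected number of arithmetic operations of the algorithm `A` on the input `d`, `m`, `C`,
`v` for a uniformly random `m`-element subset `R` of `{0, ..., d - 1}`. -/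
noncomputable def expectedOps (A : Alg) {m d : ℕ} (C : Fin m → Fin d) (v : Fin m → ℂ) : ℝ :=
  (∑ R ∈ rows m d, ((A m d R C).ops v : ℝ)) / (rows m d).card

/-- The number of operations of `A` is `o(m²)` for the worst `d`, `C`, `v`, either in expectation
over `R`, or with probability `1 - o(1)` over `R`. The bounds are required for large `m` only. -/
def Subquadratic (A : Alg) : Prop :=
  ∃ T : ℕ → ℝ, T =o[atTop] (fun m : ℕ => (m : ℝ) ^ 2) ∧
    ((∀ᶠ m : ℕ in atTop, ∀ d : ℕ, m ≤ d → ∀ C : Fin m → Fin d, StrictMono C →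
        ∀ v : Fin m → ℂ, expectedOps A C v ≤ T m) ∨
      (∃ δ : ℕ → ℝ, Tendsto δ atTop (𝓝 0) ∧ ∀ᶠ m : ℕ in atTop, ∀ d : ℕ, m ≤ d →
        ∀ C : Fin m → Fin d, StrictMono C → ∀ v : Fin m → ℂ,
          rowProb (fun R : Fin m → Fin d => T m < ((A m d R C).ops v : ℝ)) ≤ δ m))

lemma mem_rows {m d : ℕ} (R : Fin m → Fin d) : R ∈ rows m d ↔ StrictMono R := by
  unfold rows
  rw [Finset.mem_filter]
  exact ⟨fun h => h.2, fun h => ⟨Finset.mem_univ _, h⟩⟩

lemma card_rows (m d : ℕ) : (rows m d).card = d.choose m := by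
  classical
  have h : (Finset.powersetCard m (Finset.univ : Finset (Fin d))).card = d.choose m := by
    rw [Finset.card_powersetCard, Finset.card_univ, Fintype.card_fin]
  rw [← h]
  refine Finset.card_bij (fun z _ => Finset.univ.image z) ?_ ?_ ?_
  · intro z hz
    rw [mem_rows] at hz
    rw [Finset.mem_powersetCard]
    refine ⟨Finset.subset_univ _, ?_⟩
    rw [Finset.card_image_of_injective _ hz.injective, Finset.card_univ, Fintype.card_fin]
  · intro z hz z' hz' he
    rw [mem_rows] at hz hz'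
    apply (StrictMono.range_inj hz hz').1
    have := congrArg (fun s : Finset (Fin d) => (s : Set (Fin d))) he
    simpa using this
  · intro s hs
    rw [Finset.mem_powersetCard] at hs
    refine ⟨s.orderEmbOfFin hs.2, ?_, ?_⟩
    · rw [mem_rows]
      exact (s.orderEmbOfFin hs.2).strictMono
    · ext a
      rw [Finset.mem_image]
      constructor
      · rintro ⟨b, _, rfl⟩
        exact s.orderEmbOfFin_mem hs.2 b
      · intro ha
        have h1 : a ∈ Set.range (s.orderEmbOfFin hs.2) := by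
          rw [Finset.range_orderEmbOfFin]; exact ha
        obtain ⟨b, hb⟩ := h1
        exact ⟨b, Finset.mem_univ _, hb⟩

lemma pow_le_choose_mul {m d : ℕ} (h : 2 * m ≤ d) :
    d ^ m ≤ 2 ^ m * m.factorial * d.choose m := by
  have h1 : (d + 1 - m) ^ m ≤ m.factorial * d.choose m := by
    have := Nat.pow_sub_le_descFactorial d m
    rwa [Nat.descFactorial_eq_factorial_mul_choose] at this
  calc d ^ m ≤ (2 * (d + 1 - m)) ^ m := Nat.pow_le_pow_left (by omega) m
    _ = 2 ^ m * (d + 1 - m) ^ m := by rw [mul_pow]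
    _ ≤ 2 ^ m * (m.factorial * d.choose m) := Nat.mul_le_mul_left _ h1
    _ = _ := by ring

open Classical in
/-- a set of columns for which there are few easy sets of rows -/
lemma exists_columns {m : ℕ} (hm : 1 ≤ m) {ε : ℝ} (hε : 0 < ε) : ∃ d₀ : ℕ, m ≤ d₀ ∧
    ∀ d : ℕ, d₀ ≤ d → d.Prime → ∃ C : Fin m → Fin d, StrictMono C ∧
      (((rows m d).filter (fun R => ¬ Needs (2 * m ^ 2 - m) R C)).card : ℝ) ≤
        ε * (rows m d).card := by
  obtain ⟨N, hN⟩ := exists_nat_ge
    ((2 ^ (40 * m ^ 6) * (2 ^ m * m.factorial) ^ 2 : ℝ) / ε)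
  refine ⟨N + 2 * m + 1, by omega, fun d hd hp => ?_⟩
  by_contra hcon
  push Not at hcon
  have hK := card_A (k := m) (m := m) (d := d) le_rfl hp
  -- the sum over all sets of columns
  have hsum : ∑ C ∈ rows m d, ((rows m d).filter (fun R => ¬ Needs (2 * m ^ 2 - m) R C)).card ≤
      (easyPairs (2 * m ^ 2 - m) m d).ncard := by
    have h1 : (((rows m d).sigma (fun C => (rows m d).filter
        (fun R => ¬ Needs (2 * m ^ 2 - m) R C))).image (fun x => (x.2, x.1)) :
          Set ((Fin m → Fin d) × (Fin m → Fin d))) ⊆ easyPairs (2 * m ^ 2 - m) m d := by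
      intro p hp'
      simp only [Finset.coe_image, Set.mem_image, Finset.mem_coe, Finset.mem_sigma,
        Finset.mem_filter, mem_rows] at hp'
      obtain ⟨x, ⟨h2, h3, h4⟩, rfl⟩ := hp'
      exact ⟨h3, h2, h4⟩
    have h2 := Set.ncard_le_ncard h1 (Set.toFinite _)
    rw [Set.ncard_coe_finset, Finset.card_image_of_injective] at h2
    · rw [Finset.card_sigma] at h2
      exact h2
    · rintro ⟨a, b⟩ ⟨a', b'⟩ h
      simp only [Prod.mk.injEq] at h
      obtain ⟨rfl, rfl⟩ := h
      rfl
  have hdm : 2 * m ≤ d := by omega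
  have hne : (rows m d).Nonempty := by
    rw [← Finset.card_pos, card_rows]
    exact Nat.choose_pos (by omega)
  have hlow : (rows m d).card * (ε * (rows m d).card) <
      ((∑ C ∈ rows m d, ((rows m d).filter
        (fun R => ¬ Needs (2 * m ^ 2 - m) R C)).card : ℕ) : ℝ) := by
    push_cast
    calc ((rows m d).card : ℝ) * (ε * (rows m d).card) =
        ∑ C ∈ rows m d, ε * ((rows m d).card : ℝ) := by
          rw [Finset.sum_const, nsmul_eq_mul]
      _ < _ := Finset.sum_lt_sum_of_nonempty hne fun C hC => hcon C ((mem_rows C).1 hC)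
  have hup : ((∑ C ∈ rows m d, ((rows m d).filter
        (fun R => ¬ Needs (2 * m ^ 2 - m) R C)).card : ℕ) : ℝ) ≤
        2 ^ (40 * m ^ 6) * (d : ℝ) ^ (2 * m - 1) := by
    exact_mod_cast hsum.trans hK
  have hch : (d : ℝ) ^ m ≤ (2 ^ m * m.factorial : ℝ) * (rows m d).card := by
    rw [card_rows]
    exact_mod_cast pow_le_choose_mul hdm
  have hd0 : (0 : ℝ) < d := by exact_mod_cast hp.pos
  have hpow : (d : ℝ) ^ m * (d : ℝ) ^ m = (d : ℝ) ^ (2 * m - 1) * d := by
    rw [← pow_add, ← pow_succ]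
    congr 1
    omega
  have h5 : (d : ℝ) ^ (2 * m - 1) * d ≤
      (2 ^ m * m.factorial : ℝ) ^ 2 * ((rows m d).card * (rows m d).card) := by
    rw [← hpow]
    calc (d : ℝ) ^ m * (d : ℝ) ^ m ≤ ((2 ^ m * m.factorial : ℝ) * (rows m d).card) *
        ((2 ^ m * m.factorial : ℝ) * (rows m d).card) :=
          mul_le_mul hch hch (by positivity) (by positivity)
      _ = _ := by ring
  have h6 : (2 ^ (40 * m ^ 6) * (2 ^ m * m.factorial) ^ 2 : ℝ) ≤ ε * d := by
    rw [div_le_iff₀ hε] at hN
    have : (N : ℝ) ≤ d := by exact_mod_cast (by omega : N ≤ d)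
    nlinarith
  have h7 : (0 : ℝ) < (d : ℝ) ^ (2 * m - 1) := by positivity
  have h8 : ε * ((rows m d).card * (rows m d).card : ℝ) <
      2 ^ (40 * m ^ 6) * (d : ℝ) ^ (2 * m - 1) := by
    have := hlow.trans_le hup
    linarith
  have h9 : ε * ((d : ℝ) ^ (2 * m - 1) * d) < (2 ^ m * m.factorial : ℝ) ^ 2 *
      (2 ^ (40 * m ^ 6) * (d : ℝ) ^ (2 * m - 1)) := by
    calc ε * ((d : ℝ) ^ (2 * m - 1) * d) ≤ ε * ((2 ^ m * m.factorial : ℝ) ^ 2 *
        ((rows m d).card * (rows m d).card)) := mul_le_mul_of_nonneg_left h5 hε.le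
      _ = (2 ^ m * m.factorial : ℝ) ^ 2 * (ε * ((rows m d).card * (rows m d).card : ℝ)) := by ring
      _ < _ := mul_lt_mul_of_pos_left h8 (by positivity)
  have h10 := mul_le_mul_of_nonneg_right h6 h7.le
  have h11 : ε * ((d : ℝ) ^ (2 * m - 1) * d) = ε * d * (d : ℝ) ^ (2 * m - 1) := by ring
  have h12 : (2 ^ m * m.factorial : ℝ) ^ 2 * (2 ^ (40 * m ^ 6) * (d : ℝ) ^ (2 * m - 1)) =
    2 ^ (40 * m ^ 6) * (2 ^ m * m.factorial) ^ 2 * (d : ℝ) ^ (2 * m - 1) := by ring
  rw [h11, h12] at h9
  exact absurd h9 (not_lt.2 h10)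

/-- countable intersections of generic sets are generic -/
lemma almostAll_countable {m : ℕ} {ι : Type} [Countable ι] {p : ι → (Fin m → ℂ) → Prop}
    (h : ∀ i, AlmostAll (p i)) : AlmostAll (fun v => ∀ i, p i v) := by
  choose Z h1 h2 h3 using h
  refine ⟨⋃ i, Z i, Set.countable_iUnion h1, ?_, fun v hv i => h3 i v fun z hz =>
    hv z (Set.mem_iUnion.2 ⟨i, hz⟩)⟩
  intro h0
  obtain ⟨i, hi⟩ := Set.mem_iUnion.1 h0
  exact h2 i hi

lemma rowProb_eq {m d : ℕ} (p : (Fin m → Fin d) → Prop) [DecidablePred p] :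
    rowProb p = (((rows m d).filter p).card : ℝ) / (rows m d).card := by
  unfold rowProb
  congr!

lemma rowProb_mono {m d : ℕ} {p q : (Fin m → Fin d) → Prop}
    (h : ∀ R, StrictMono R → p R → q R) : rowProb p ≤ rowProb q := by
  classical
  unfold rowProb
  apply div_le_div_of_nonneg_right _ (Nat.cast_nonneg _)
  have : (rows m d).filter p ⊆ (rows m d).filter q := by
    intro R hR
    rw [Finset.mem_filter] at hR ⊢
    exact ⟨hR.1, h R ((mem_rows R).1 hR.1) hR.2⟩
  exact_mod_cast Finset.card_le_card this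

lemma rowProb_add_not {m d : ℕ} (hmd : m ≤ d) (p : (Fin m → Fin d) → Prop) :
    rowProb p + rowProb (fun R => ¬ p R) = 1 := by
  classical
  unfold rowProb
  have h1 := Finset.card_filter_add_card_filter_not (s := rows m d) p
  have h2 : (0 : ℝ) < (rows m d).card := by
    rw [card_rows]
    exact_mod_cast Nat.choose_pos hmd
  rw [← add_div, div_eq_one_iff_eq h2.ne']
  rw [← h1]
  push_cast
  congr 2
  convert rfl

/-- Markov inequality -/
lemma expected_ge {m d L : ℕ} (hmd : m ≤ d) (A : Alg) (C : Fin m → Fin d) (v : Fin m → ℂ)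
    {ε : ℝ} (h : rowProb (fun R => (A m d R C).ops v < L) ≤ ε) :
    (1 - ε) * L ≤ expectedOps A C v := by
  classical
  have h1 := rowProb_add_not hmd (fun R => (A m d R C).ops v < L)
  have h2 : 1 - ε ≤ rowProb (fun R => ¬ (A m d R C).ops v < L) := by linarith
  have h3 : (0 : ℝ) < (rows m d).card := by
    rw [card_rows]
    exact_mod_cast Nat.choose_pos hmd
  have h4 : rowProb (fun R => ¬ (A m d R C).ops v < L) * L ≤ expectedOps A C v := by
    rw [rowProb_eq]
    unfold expectedOps
    rw [div_mul_eq_mul_div, div_le_div_iff_of_pos_right h3]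
    calc (((rows m d).filter (fun R => ¬ (A m d R C).ops v < L)).card : ℝ) * L =
        ∑ R ∈ (rows m d).filter (fun R => ¬ (A m d R C).ops v < L), (L : ℝ) := by
          rw [Finset.sum_const, nsmul_eq_mul]
      _ ≤ ∑ R ∈ (rows m d).filter (fun R => ¬ (A m d R C).ops v < L),
          ((A m d R C).ops v : ℝ) := by
          refine Finset.sum_le_sum fun R hR => ?_
          have := (Finset.mem_filter.1 hR).2
          exact_mod_cast not_lt.1 this
      _ ≤ _ := Finset.sum_le_sum_of_subset_of_nonneg (Finset.filter_subset _ _)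
          fun _ _ _ => Nat.cast_nonneg _
  exact (mul_le_mul_of_nonneg_right h2 (Nat.cast_nonneg _)).trans h4

/-- **The exact cost for random sets of rows.**

1. For all `m ≥ 1` and `ε > 0` there is `d₀ ≥ m` such that for every prime `d ≥ d₀` there is a set
   `C` of `m` columns with the following property. For every sequence `A 0, A 1, ...` of algorithms
   (correct or not) there is a vector `v` such that for every `i`, if `R` is a random set of `m`
   rows then the probability that `A i` outputs the correct vector `F_{RC} v` with fewer than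
   `2 m² - m` arithmetic operations is at most `ε`; and if `A i` is correct, then its expected
   number of operations on this input is at least `(1 - ε) (2 m² - m)`.
2. There is a correct algorithm which uses at most `2 m² - m` operations on all inputs.
3. No correct algorithm has `o(m²)` operations, neither in expectation nor with probability
   `1 - o(1)` over `R`, for the worst `d ≥ m`, `C` and `v`. -/
theorem result :
    (∀ m : ℕ, 1 ≤ m → ∀ ε : ℝ, 0 < ε → ∃ d₀ : ℕ, m ≤ d₀ ∧ ∀ d : ℕ, d₀ ≤ d → d.Prime →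
      ∃ C : Fin m → Fin d, StrictMono C ∧ ∀ A : ℕ → Alg, ∃ v : Fin m → ℂ, ∀ i : ℕ,
        rowProb (fun R : Fin m → Fin d => (A i m d R C).run v = fourierProd R C v ∧
          (A i m d R C).ops v < 2 * m ^ 2 - m) ≤ ε ∧
        ((A i).Correct → (1 - ε) * (2 * m ^ 2 - m) ≤ expectedOps (A i) C v)) ∧
    (∃ A : Alg, A.Correct ∧ ∀ (m d : ℕ) (R C : Fin m → Fin d) (v : Fin m → ℂ),
      (A m d R C).ops v ≤ 2 * m ^ 2 - m) ∧
    ¬ ∃ A : Alg, A.Correct ∧ Subquadratic A := by
  classical
  have main : ∀ m : ℕ, 1 ≤ m → ∀ ε : ℝ, 0 < ε → ∃ d₀ : ℕ, m ≤ d₀ ∧ ∀ d : ℕ, d₀ ≤ d → d.Prime →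
      ∃ C : Fin m → Fin d, StrictMono C ∧ ∀ A : ℕ → Alg, ∃ v : Fin m → ℂ, ∀ i : ℕ,
        rowProb (fun R : Fin m → Fin d => (A i m d R C).run v = fourierProd R C v ∧
          (A i m d R C).ops v < 2 * m ^ 2 - m) ≤ ε ∧
        ((A i).Correct → (1 - ε) * (2 * m ^ 2 - m) ≤ expectedOps (A i) C v) := by
    intro m hm ε hε
    obtain ⟨d₀, h1, h2⟩ := exists_columns hm hε
    refine ⟨d₀, h1, fun d hd hp => ?_⟩
    obtain ⟨C, hC, h3⟩ := h2 d hd hp
    refine ⟨C, hC, fun A => ?_⟩
    have hmd : m ≤ d := h1.trans hd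
    have hcard : (0 : ℝ) < (rows m d).card := by
      rw [card_rows]
      exact_mod_cast Nat.choose_pos hmd
    have hall : AlmostAll (fun v : Fin m → ℂ => ∀ x : ℕ × (Fin m → Fin d),
        Needs (2 * m ^ 2 - m) x.2 C → (A x.1 m d x.2 C).run v = fourierProd x.2 C v →
          2 * m ^ 2 - m ≤ (A x.1 m d x.2 C).ops v) := by
      apply almostAll_countable
      intro x
      by_cases hx : Needs (2 * m ^ 2 - m) x.2 C
      · obtain ⟨Z, hZ1, hZ2, hZ3⟩ := hx (A x.1 m d x.2 C)
        exact ⟨Z, hZ1, hZ2, fun v hv _ => hZ3 v hv⟩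
      · exact ⟨∅, Set.countable_empty, fun h => h, fun v _ h => absurd h hx⟩
    obtain ⟨v, hv⟩ := hall.exists
    refine ⟨v, fun i => ?_⟩
    have h4 : rowProb (fun R : Fin m → Fin d => (A i m d R C).run v = fourierProd R C v ∧
          (A i m d R C).ops v < 2 * m ^ 2 - m) ≤ ε := by
      refine (rowProb_mono (q := fun R => ¬ Needs (2 * m ^ 2 - m) R C) ?_).trans ?_
      · rintro R hR ⟨h5, h6⟩ h7
        exact absurd (hv (i, R) h7 h5) (not_le.2 h6)
      · rw [rowProb_eq, div_le_iff₀ hcard]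
        refine le_trans (le_of_eq ?_) h3
        congr!
    refine ⟨h4, fun hA => ?_⟩
    have h5 : rowProb (fun R : Fin m → Fin d => (A i m d R C).ops v < 2 * m ^ 2 - m) ≤ ε :=
      (rowProb_mono (fun R hR h => ⟨hA m d R C hR hC v, h⟩)).trans h4
    have h6 := expected_ge hmd (A i) C v h5
    have h7 : ((2 * m ^ 2 - m : ℕ) : ℝ) = 2 * (m : ℝ) ^ 2 - m := by
      have : m ≤ 2 * m ^ 2 := by nlinarith
      rw [Nat.cast_sub this]
      push_cast
      ring
    rw [h7] at h6
    exact h6
  refine ⟨main, ⟨direct, fun m d R C _ _ v => (direct_spec R C v).1, fun m d R C v => ?_⟩, ?_⟩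
  · have := (direct_spec R C v).2
    omega
  · rintro ⟨A, hA, T, hT, h⟩
    have hT' := hT.bound (show (0 : ℝ) < 1 / 4 by norm_num)
    -- one value of `m`
    have hex : ∃ m : ℕ, (‖T m‖ ≤ 1 / 4 * ‖(m : ℝ) ^ 2‖ ∧ 1 ≤ m) ∧
        ((∀ d : ℕ, m ≤ d → ∀ C : Fin m → Fin d, StrictMono C →
          ∀ v : Fin m → ℂ, expectedOps A C v ≤ T m) ∨
        (∃ δ : ℝ, δ < 1 / 2 ∧ ∀ d : ℕ, m ≤ d → ∀ C : Fin m → Fin d, StrictMono C →
          ∀ v : Fin m → ℂ,
          rowProb (fun R : Fin m → Fin d => T m < ((A m d R C).ops v : ℝ)) ≤ δ)) := by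
      rcases h with ha | ⟨δ, hδ, hb⟩
      · obtain ⟨m, h1, h2⟩ := ((hT'.and (eventually_ge_atTop 1)).and ha).exists
        exact ⟨m, h1, Or.inl h2⟩
      · have hδ' : ∀ᶠ m : ℕ in atTop, δ m < 1 / 2 :=
          hδ.eventually (gt_mem_nhds (by norm_num))
        obtain ⟨m, h1, h2, h3⟩ :=
          ((hT'.and (eventually_ge_atTop 1)).and (hδ'.and hb)).exists
        exact ⟨m, h1, Or.inr ⟨δ m, h2, h3⟩⟩
    obtain ⟨m, ⟨hm, hm1⟩, h⟩ := hex
    have hm1' : (1 : ℝ) ≤ m := by exact_mod_cast hm1
    have hmsq : (0 : ℝ) ≤ (m : ℝ) ^ 2 := by positivity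
    have hTm : T m ≤ (m : ℝ) ^ 2 / 4 := by
      have h1 := le_abs_self (T m)
      rw [Real.norm_eq_abs, Real.norm_eq_abs, abs_of_nonneg hmsq] at hm
      linarith
    obtain ⟨d₀, h1, h2⟩ := main m hm1 (1 / 2) (by norm_num)
    obtain ⟨d, hd, hp⟩ := Nat.exists_infinite_primes d₀
    obtain ⟨C, hC, h3⟩ := h2 d hd hp
    obtain ⟨v, hv⟩ := h3 (fun _ => A)
    have hmd : m ≤ d := h1.trans hd
    obtain ⟨h4, h5⟩ := hv 0
    rcases h with ha | ⟨δ, hδ, hb⟩
    · have h6 := ha d hmd C hC v
      have h7 := h5 hA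
      nlinarith
    · have h6 := hb d hmd C hC v
      have h7 := rowProb_add_not hmd (fun R : Fin m → Fin d => T m < ((A m d R C).ops v : ℝ))
      have h8 : rowProb (fun R : Fin m → Fin d => ¬ T m < ((A m d R C).ops v : ℝ)) ≤
          rowProb (fun R : Fin m → Fin d => (A m d R C).run v = fourierProd R C v ∧
          (A m d R C).ops v < 2 * m ^ 2 - m) := by
        refine rowProb_mono fun R hR h => ⟨hA m d R C hR hC v, ?_⟩
        have h9 : ((A m d R C).ops v : ℝ) ≤ (m : ℝ) ^ 2 / 4 := (not_lt.1 h).trans hTm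
        have h10 : ((A m d R C).ops v : ℝ) < (m : ℝ) ^ 2 := by nlinarith
        have h11 : (A m d R C).ops v < m ^ 2 := by exact_mod_cast h10
        have h12 : m ≤ m ^ 2 := by nlinarith
        omega
      linarith

end Pool.Agent.Results.MP_a662a5_lc.RandomRowsExact
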